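import Pool.Agent.R708.LS.Final

/-!
# MP_f85f12_al

There is a triangulated category with a lax stability condition one of whose slices `P(φ)` fails
the Jordan-Hölder property; moreover every nonzero object of this slice is massive.

The example is `D^b(mod ℤ[X])`, with the slices `P(1)` (torsion modules) and `P(1/2)` (torsion-free
modules), and the charge `i · rank`.  The definitions (`Slicing`, `LaxStability`, `IsSimple`,
`CompSeries`, `JordanHolder`, `K0`) are in `Pool/Agent/R708/LS/Defs.lean`.
-/

open CategoryTheory Limits LaxStab

namespace Pool.Agent.Results.MP_f85f12_al.JordanHolderFailsInLaxSlice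

/-- Q1: yes. -/
theorem result :
    ∃ (C : Type 1) (_ : Category.{1} C) (_ : HasZeroObject C) (_ : HasShift C ℤ)
      (_ : Preadditive C) (_ : ∀ n : ℤ, (shiftFunctor C n).Additive) (_ : Pretriangulated C)
      (_ : IsTriangulated C) (L : LaxStability C) (φ : ℝ),
      ¬ JordanHolder ((L.slicing.P φ).FullSubcategory) ∧
        ∀ c : C, L.slicing.P φ c → ¬ IsZero c → L.Z (L.v (K0.cls c)) ≠ 0 := by
  letI : HasDerivedCategory.{1} (FGModuleCat.{0} (Polynomial ℤ)) := HasDerivedCategory.standard _
  exact ⟨DerivedCategory.Bounded (FGModuleCat.{0} (Polynomial ℤ)), inferInstance, inferInstance,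
    inferInstance, inferInstance, inferInstance, inferInstance, inferInstance,
    theStab (Polynomial ℤ), _, main⟩

end Pool.Agent.Results.MP_f85f12_al.JordanHolderFailsInLaxSlice
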